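import Mathlib

/-! Statements of the pieces for the reducibility of the variety of commuting nilpotent triples. -/

namespace Pool.Agent.R641.CN

open Matrix

universe u

/-- Piece A. Three commuting matrices of size `n+1` over an extension `E` of `k` whose `(n+1)`-st
powers vanish, the first basis vector being cyclic for the first one: their entries lie in an
extension of `k` generated by `(n+1) n + 2 n` elements. -/
def StA : Prop :=
  ∀ (k E : Type u) [Field k] [Field E] [Algebra k E] (n : ℕ)
    (x : Fin 3 → Matrix (Fin (n + 1)) (Fin (n + 1)) E),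
    (∀ i j, x i * x j = x j * x i) → (∀ i, x i ^ (n + 1) = 0) →
    (∃ v, (x 0 ^ n) v 0 ≠ 0) →
    ∃ S : Finset E, S.card ≤ (n + 1) * n + 2 * n ∧
      ∀ i v w, x i v w ∈ IntermediateField.adjoin k (S : Set E)

/-- Piece B. A family of commuting triples with `4ab + 4bc + ac` algebraically independent
parameters which can be recovered rationally from the entries. -/
def StB : Prop :=
  ∀ (k : Type u) [Field k] (a b c : ℕ), a ≤ b → b + c ≤ 3 * a → c ≤ 3 * (b - a) →
    ∃ (K : Type u) (_ : Field K) (_ : Algebra k K)
      (t : Fin (4 * a * b + 4 * b * c + a * c) → K)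
      (M : Fin 3 → Matrix (Fin c ⊕ (Fin b ⊕ Fin a)) (Fin c ⊕ (Fin b ⊕ Fin a)) K),
      AlgebraicIndependent k t ∧ (∀ i j, M i * M j = M j * M i) ∧ (∀ i, M i ^ 3 = 0) ∧
      ∀ s, t s ∈ IntermediateField.adjoin k {z : K | ∃ i v w, z = M i v w}

end Pool.Agent.R641.CN
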