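import Pool.Agent.R641.CN.Stm

/-! Piece A of project CN (helper91). -/

set_option autoImplicit false

namespace Pool.Agent.R641.CN

open Matrix

universe u

namespace PA

variable {E : Type u} [Field E] {n : ℕ}

/-- the matrix with columns `x^i e` -/
def gg (x : Matrix (Fin (n + 1)) (Fin (n + 1)) E) : Matrix (Fin (n + 1)) (Fin (n + 1)) E :=
  Matrix.of fun v i => (x ^ (i : ℕ)) v 0

/-- a polynomial in `x` -/
def pol (c : Fin (n + 1) → E) (x : Matrix (Fin (n + 1)) (Fin (n + 1)) E) :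
    Matrix (Fin (n + 1)) (Fin (n + 1)) E := ∑ j, c j • x ^ (j : ℕ)

lemma pol_col (c : Fin (n + 1) → E) (x : Matrix (Fin (n + 1)) (Fin (n + 1)) E) (v : Fin (n + 1)) :
    pol c x v 0 = (gg x *ᵥ c) v := by
  simp only [pol, Matrix.sum_apply, Matrix.smul_apply, smul_eq_mul, Matrix.mulVec, dotProduct, gg,
    Matrix.of_apply]
  exact Finset.sum_congr rfl fun j _ => mul_comm _ _

lemma pow_zero_of_le {x : Matrix (Fin (n + 1)) (Fin (n + 1)) E} (hx : x ^ (n + 1) = 0) {m : ℕ}
    (hm : n + 1 ≤ m) : x ^ m = 0 := by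
  obtain ⟨d, rfl⟩ := Nat.exists_eq_add_of_le hm
  rw [pow_add, hx, zero_mul]

lemma det_ne {x : Matrix (Fin (n + 1)) (Fin (n + 1)) E} (hx : x ^ (n + 1) = 0)
    (hc : ∃ v, (x ^ n) v 0 ≠ 0) : (gg x).det ≠ 0 := by
  intro hd
  obtain ⟨c, hc0, hcz⟩ := Matrix.exists_mulVec_eq_zero_iff.2 hd
  obtain ⟨v, hv⟩ := hc
  have hex : ∃ i : ℕ, ∃ h : i < n + 1, c ⟨i, h⟩ ≠ 0 := by
    by_contra hcon
    push Not at hcon
    apply hc0
    funext i
    exact hcon i i.2
  classical
  obtain ⟨hi, hci⟩ := Nat.find_spec hex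
  set i := Nat.find hex with hidef
  have hmin : ∀ j, j < i → ∀ h : j < n + 1, c ⟨j, h⟩ = 0 := by
    intro j hj h
    by_contra hne
    exact Nat.find_min hex hj ⟨h, hne⟩
  have h1 : x ^ (n - i) * pol c x = c ⟨i, hi⟩ • x ^ n := by
    rw [pol, Finset.mul_sum, Finset.sum_eq_single (⟨i, hi⟩ : Fin (n + 1))]
    · rw [Matrix.mul_smul, ← pow_add]
      congr 2
      simp only
      omega
    · intro j _ hj
      rcases lt_trichotomy (j : ℕ) i with h | h | h
      · rw [show c j = 0 from hmin j h j.2, zero_smul, mul_zero]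
      · exact absurd (Fin.ext h) hj
      · rw [Matrix.mul_smul, ← pow_add, pow_zero_of_le hx (by omega), smul_zero]
    · intro h; exact absurd (Finset.mem_univ _) h
  have h2 : (x ^ (n - i) * pol c x) v 0 = 0 := by
    rw [Matrix.mul_apply]
    refine Finset.sum_eq_zero fun w _ => ?_
    rw [pol_col, hcz]
    simp
  rw [h1, Matrix.smul_apply, smul_eq_mul] at h2
  rcases mul_eq_zero.1 h2 with h | h
  · exact hci h
  · exact hv h

lemma commute_pol (c : Fin (n + 1) → E) (x : Matrix (Fin (n + 1)) (Fin (n + 1)) E) (i : ℕ) :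
    pol c x * x ^ i = x ^ i * pol c x := by
  rw [pol, Finset.mul_sum, Finset.sum_mul]
  refine Finset.sum_congr rfl fun j _ => ?_
  rw [Matrix.mul_smul, Matrix.smul_mul, ← pow_add, ← pow_add, Nat.add_comm (j : ℕ) i]

lemma mul_gg_col {x y : Matrix (Fin (n + 1)) (Fin (n + 1)) E} (hxy : ∀ i : ℕ, y * x ^ i = x ^ i * y)
    (v i : Fin (n + 1)) : (y * gg x) v i = ∑ w, (x ^ (i : ℕ)) v w * y w 0 := by
  have h1 : (y * gg x) v i = (y * x ^ (i : ℕ)) v 0 := by
    rw [Matrix.mul_apply, Matrix.mul_apply]; rfl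
  rw [h1, hxy, Matrix.mul_apply]

/-- an element commuting with `x` is a polynomial in `x` -/
lemma eq_pol {x y : Matrix (Fin (n + 1)) (Fin (n + 1)) E} (hx : x ^ (n + 1) = 0)
    (hc : ∃ v, (x ^ n) v 0 ≠ 0) (hxy : x * y = y * x) :
    y = pol ((gg x)⁻¹ *ᵥ fun v => y v 0) x := by
  have hd : IsUnit (gg x).det := isUnit_iff_ne_zero.2 (det_ne hx hc)
  set c := (gg x)⁻¹ *ᵥ fun v => y v 0 with hcdef
  have hcomm : ∀ i : ℕ, y * x ^ i = x ^ i * y := by
    intro i
    have : Commute y x := hxy.symm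
    exact this.pow_right i
  have hcol : ∀ v, pol c x v 0 = y v 0 := by
    intro v
    rw [pol_col, hcdef, Matrix.mulVec_mulVec, Matrix.mul_nonsing_inv _ hd, Matrix.one_mulVec]
  have h1 : y * gg x = pol c x * gg x := by
    ext v i
    rw [mul_gg_col hcomm, mul_gg_col (commute_pol c x)]
    simp only [hcol]
  have h2 := congrArg (· * (gg x)⁻¹) h1
  simpa [Matrix.mul_assoc, Matrix.mul_nonsing_inv _ hd] using h2

lemma coeff_zero {x : Matrix (Fin (n + 1)) (Fin (n + 1)) E} (hx : x ^ (n + 1) = 0)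
    (hc : ∃ v, (x ^ n) v 0 ≠ 0) (c : Fin (n + 1) → E) (hy : pol c x ^ (n + 1) = 0) : c 0 = 0 := by
  have h1 : pol c x * x ^ n = c 0 • x ^ n := by
    rw [pol, Finset.sum_mul, Finset.sum_eq_single (0 : Fin (n + 1))]
    · simp
    · intro j _ hj
      have : 0 < (j : ℕ) := Nat.pos_of_ne_zero fun h => hj (Fin.ext h)
      rw [Matrix.smul_mul, ← pow_add, pow_zero_of_le hx (by omega), smul_zero]
    · intro h; exact absurd (Finset.mem_univ _) h
  have h2 : ∀ m : ℕ, pol c x ^ m * x ^ n = c 0 ^ m • x ^ n := by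
    intro m
    induction m with
    | zero => simp
    | succ m ih => rw [pow_succ, mul_assoc, h1, Matrix.mul_smul, ih, smul_smul, pow_succ, mul_comm]
  have h3 := h2 (n + 1)
  rw [hy, zero_mul] at h3
  obtain ⟨v, hv⟩ := hc
  have h4 := congrFun (congrFun h3 v) 0
  rw [Matrix.smul_apply, smul_eq_mul, Matrix.zero_apply] at h4
  rcases mul_eq_zero.1 h4.symm with h | h
  · exact pow_eq_zero_iff (by omega) |>.1 h
  · exact absurd h hv

section sub

variable {k : Type u} [Field k] [Algebra k E] (T : IntermediateField k E)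

/-- entries in `T` -/
def InT (M : Matrix (Fin (n + 1)) (Fin (n + 1)) E) : Prop := ∀ v w, M v w ∈ T

variable {T}

lemma InT.mul {M N : Matrix (Fin (n + 1)) (Fin (n + 1)) E} (hM : InT T M) (hN : InT T N) :
    InT T (M * N) := by
  intro v w
  rw [Matrix.mul_apply]
  exact sum_mem fun j _ => mul_mem (hM v j) (hN j w)

lemma InT.one : InT T (1 : Matrix (Fin (n + 1)) (Fin (n + 1)) E) := by
  intro v w
  rw [Matrix.one_apply]
  split_ifs
  · exact one_mem T
  · exact zero_mem T

lemma InT.pow {M : Matrix (Fin (n + 1)) (Fin (n + 1)) E} (hM : InT T M) (i : ℕ) : InT T (M ^ i) := by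
  induction i with
  | zero => rw [pow_zero]; exact InT.one
  | succ i ih => rw [pow_succ]; exact ih.mul hM

lemma InT.pol {M : Matrix (Fin (n + 1)) (Fin (n + 1)) E} (hM : InT T M) (c : Fin (n + 1) → E)
    (hc : ∀ j, c j ∈ T) : InT T (PA.pol c M) := by
  intro v w
  rw [PA.pol, Matrix.sum_apply]
  refine sum_mem fun j _ => ?_
  rw [Matrix.smul_apply, smul_eq_mul]
  exact mul_mem (hc j) (hM.pow _ v w)

lemma InT.inv {M : Matrix (Fin (n + 1)) (Fin (n + 1)) E} (hM : InT T M) (hd : M.det ≠ 0) :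
    InT T M⁻¹ := by
  set f := algebraMap T E
  let M' : Matrix (Fin (n + 1)) (Fin (n + 1)) T := Matrix.of fun v w => ⟨M v w, hM v w⟩
  have hMM : M'.map f = M := by ext v w; rfl
  have hdet : f M'.det = M.det := by
    rw [RingHom.map_det, ← hMM]; rfl
  have hu : IsUnit M'.det := by
    rw [isUnit_iff_ne_zero]
    intro h
    rw [h, map_zero] at hdet
    exact hd hdet.symm
  have h1 : M * (M'⁻¹.map f) = 1 := by
    rw [← hMM, ← Matrix.map_mul, Matrix.mul_nonsing_inv _ hu]
    simp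
  rw [Matrix.inv_eq_right_inv h1]
  intro v w
  exact (M'⁻¹ v w).2

end sub

end PA

open PA in
theorem t_A : StA.{u} := by
  intro k E _ _ _ n x hcomm hnil hcyc
  classical
  set g := gg (x 0) with hg
  have hd : g.det ≠ 0 := det_ne (hnil 0) hcyc
  let al : Fin 3 → Fin (n + 1) → E := fun i => g⁻¹ *ᵥ fun v => x i v 0
  have hpol : ∀ i, x i = pol (al i) (x 0) := fun i => eq_pol (hnil 0) hcyc (hcomm 0 i)
  have hal0 : ∀ i, al i 0 = 0 := fun i =>
    coeff_zero (hnil 0) hcyc (al i) (by rw [← hpol i]; exact hnil i)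
  let s : (Fin (n + 1) × Fin n) ⊕ (Fin n ⊕ Fin n) → E :=
    Sum.elim (fun p => g p.1 p.2.succ) (Sum.elim (fun j => al 1 j.succ) (fun j => al 2 j.succ))
  refine ⟨Finset.univ.image s, ?_, ?_⟩
  · refine Finset.card_image_le.trans ?_
    rw [Finset.card_univ]
    simp only [Fintype.card_sum, Fintype.card_prod, Fintype.card_fin]
    omega
  set T := IntermediateField.adjoin k ((Finset.univ.image s : Finset E) : Set E) with hT
  have hs : ∀ z, s z ∈ T := fun z =>
    IntermediateField.subset_adjoin _ _ (by simp)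
  have hgT : InT T g := by
    intro v i
    refine Fin.cases ?_ (fun j => ?_) i
    · rw [hg, gg, Matrix.of_apply]
      exact InT.one (T := T) (n := n) v 0
    · exact hs (Sum.inl (v, j))
  have hx0 : InT T (x 0 * g) := by
    intro v i
    have h1 : (x 0 * g) v i = ((x 0) ^ ((i : ℕ) + 1)) v 0 := by
      rw [pow_succ', Matrix.mul_apply, Matrix.mul_apply]; rfl
    rw [h1]
    rcases Nat.lt_or_ge (i : ℕ) n with h | h
    · exact hs (Sum.inl (v, ⟨i, h⟩))
    · rw [pow_zero_of_le (hnil 0) (by omega)]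
      exact zero_mem T
  have hx0' : InT T (x 0) := by
    have : x 0 = (x 0 * g) * g⁻¹ := by
      rw [Matrix.mul_assoc, Matrix.mul_nonsing_inv _ (isUnit_iff_ne_zero.2 hd), Matrix.mul_one]
    rw [this]
    exact hx0.mul (hgT.inv hd)
  intro i
  fin_cases i
  · exact hx0'
  · intro v w
    change x 1 v w ∈ T
    rw [hpol 1]
    refine InT.pol hx0' (al 1) (fun j => ?_) v w
    refine Fin.cases ?_ (fun j => ?_) j
    · rw [hal0]; exact zero_mem T
    · exact hs (Sum.inr (Sum.inl j))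
  · intro v w
    change x 2 v w ∈ T
    rw [hpol 2]
    refine InT.pol hx0' (al 2) (fun j => ?_) v w
    refine Fin.cases ?_ (fun j => ?_) j
    · rw [hal0]; exact zero_mem T
    · exact hs (Sum.inr (Sum.inr j))

end Pool.Agent.R641.CN
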