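import Mathlib

/-! Transcendence degrees of fields generated by sets, quotients of polynomial rings. -/

namespace Pool.Agent.R641.CN

open Cardinal MvPolynomial

universe u

section

variable {k E : Type u} [Field k] [Field E] [Algebra k E]

open scoped IntermediateField.algebraAdjoinAdjoin in
theorem trdeg_adjoin_eq (S : Set E) :
    Algebra.trdeg k (IntermediateField.adjoin k S) = Algebra.trdeg k (Algebra.adjoin k S) := by
  have h : Algebra.IsAlgebraic (Algebra.adjoin k S) (IntermediateField.adjoin k S) :=
    inferInstance
  have h0 := trdeg_add_eq k (Algebra.adjoin k S) (A := IntermediateField.adjoin k S)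
  rw [← h0, trdeg_eq_zero_iff.2 h, add_zero]

theorem trdeg_algebraAdjoin_le (S : Set E) : Algebra.trdeg k (Algebra.adjoin k S) ≤ #S := by
  have h1 : (MvPolynomial.aeval ((↑) : S → E) : MvPolynomial S k →ₐ[k] E).range
      = Algebra.adjoin k S := by
    rw [← Algebra.adjoin_range_eq_range_aeval, Subtype.range_coe]
  have h2 := trdeg_le_of_surjective
    (MvPolynomial.aeval ((↑) : S → E) : MvPolynomial S k →ₐ[k] E).rangeRestrict
    (AlgHom.rangeRestrict_surjective _)
  rw [h1] at h2
  simpa using h2

theorem trdeg_adjoin_le (S : Set E) : Algebra.trdeg k (IntermediateField.adjoin k S) ≤ #S := by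
  rw [trdeg_adjoin_eq]
  exact trdeg_algebraAdjoin_le S

theorem card_le_trdeg_adjoin (S : Set E) {D : ℕ} (t : Fin D → E) (ht : AlgebraicIndependent k t)
    (hS : ∀ s, t s ∈ IntermediateField.adjoin k S) :
    (D : Cardinal.{u}) ≤ Algebra.trdeg k (Algebra.adjoin k S) := by
  rw [← trdeg_adjoin_eq]
  let t' : Fin D → IntermediateField.adjoin k S := fun s => ⟨t s, hS s⟩
  have h : AlgebraicIndependent k t' := by
    apply AlgebraicIndependent.of_comp (IntermediateField.val _)
    exact ht
  have := h.lift_cardinalMk_le_trdeg
  simpa using this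

end

section

variable {k : Type u} [Field k] {σ : Type} (P : Ideal (MvPolynomial σ k))

/-- If the images of the variables lie in a field generated by a finite set `S`. -/
theorem trdeg_quot_le [P.IsPrime] (S : Finset (FractionRing (MvPolynomial σ k ⧸ P)))
    (hS : ∀ s, algebraMap (MvPolynomial σ k ⧸ P) (FractionRing (MvPolynomial σ k ⧸ P))
      (Ideal.Quotient.mk P (X s)) ∈ IntermediateField.adjoin k (S : Set _)) :
    Algebra.trdeg k (MvPolynomial σ k ⧸ P) ≤ (S.card : Cardinal.{u}) := by
  let A := MvPolynomial σ k ⧸ P
  let E := FractionRing A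
  let T := IntermediateField.adjoin k (S : Set E)
  let f : A →ₐ[k] E := IsScalarTower.toAlgHom k A E
  have hf : Function.Injective f := IsFractionRing.injective A E
  have hT : ∀ a, f a ∈ T.toSubalgebra := by
    intro a
    obtain ⟨p, rfl⟩ := Ideal.Quotient.mk_surjective a
    induction p using MvPolynomial.induction_on with
    | C c =>
      have : f (Ideal.Quotient.mk P (C c)) = algebraMap k E c := by
        have h : (Ideal.Quotient.mk P (C c)) = algebraMap k A c := rfl
        rw [h]
        exact f.commutes c
      rw [this]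
      exact T.toSubalgebra.algebraMap_mem c
    | add p q hp hq =>
      rw [map_add, map_add]
      exact add_mem hp hq
    | mul_X p s hp =>
      rw [map_mul, map_mul]
      exact mul_mem hp (hS s)
  let g : A →ₐ[k] T.toSubalgebra := f.codRestrict T.toSubalgebra hT
  have hg : Function.Injective g := (AlgHom.injective_codRestrict f _ _).2 hf
  have h1 := trdeg_le_of_injective g hg
  have h2 : Algebra.trdeg k T.toSubalgebra ≤ #(S : Set E) := trdeg_adjoin_le (S : Set E)
  refine (h1.trans h2).trans (le_of_eq ?_)
  exact Cardinal.mk_coe_finset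

/-- If `P` is contained in the kernel of a point `x` with values in `K`, and the field generated
by the coordinates contains `D` independent elements. -/
theorem le_trdeg_quot {K : Type u} [Field K] [Algebra k K] (x : σ → K)
    (hP : ∀ p ∈ P, aeval x p = 0) {D : ℕ} (t : Fin D → K) (ht : AlgebraicIndependent k t)
    (hS : ∀ s, t s ∈ IntermediateField.adjoin k (Set.range x)) :
    (D : Cardinal.{u}) ≤ Algebra.trdeg k (MvPolynomial σ k ⧸ P) := by
  refine (card_le_trdeg_adjoin _ t ht hS).trans ?_
  let f : (MvPolynomial σ k ⧸ P) →ₐ[k] K := Ideal.Quotient.liftₐ P (aeval x) hP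
  have h1 : f.range = Algebra.adjoin k (Set.range x) := by
    rw [Algebra.adjoin_range_eq_range_aeval]
    ext y
    constructor
    · rintro ⟨a, rfl⟩
      obtain ⟨p, rfl⟩ := Ideal.Quotient.mk_surjective a
      exact ⟨p, rfl⟩
    · rintro ⟨p, rfl⟩
      exact ⟨Ideal.Quotient.mk P p, rfl⟩
  rw [← h1]
  exact trdeg_le_of_surjective f.rangeRestrict (AlgHom.rangeRestrict_surjective _)

end

end Pool.Agent.R641.CN
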