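import Mathlib
import Pool.Agent.R641.CN.Stm
import Pool.Agent.R641.CN.Trd

/-! The variety of commuting nilpotent tuples. -/

namespace Pool.Agent.R641.CN

open MvPolynomial Cardinal

universe u

/-- The affine space `k^(r n^2)` of `r`-tuples of `n × n` matrices over `k`. -/
abbrev Tup (k : Type*) (r n : ℕ) := Fin r → Matrix (Fin n) (Fin n) k

/-- `C_r(N_n)`: the `r`-tuples of pairwise commuting nilpotent `n × n` matrices over `k`. -/
def comNil (k : Type*) [Field k] (r n : ℕ) : Set (Tup k r n) :=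
  {x | (∀ i, IsNilpotent (x i)) ∧ ∀ i j, x i * x j = x j * x i}

/-- Zariski closed subsets of the affine space of `r`-tuples of matrices: the sets of common zeros
of sets of polynomials over `k` in the `r n^2` matrix entries. -/
def IsZariskiClosed {k : Type*} [Field k] {r n : ℕ} (Z : Set (Tup k r n)) : Prop :=
  ∃ F : Set (MvPolynomial (Fin r × Fin n × Fin n) k),
    Z = {x | ∀ f ∈ F, MvPolynomial.eval (fun p => x p.1 p.2.1 p.2.2) f = 0}

section

variable {k : Type u} [Field k] {r n : ℕ}

/-- tuple of matrices with given coordinates -/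
def ofPt {L : Type*} (y : Fin r × Fin n × Fin n → L) : Tup L r n := fun i u v => y (i, u, v)

/-- the generic matrices -/
noncomputable def genMat (k : Type u) [Field k] (r n : ℕ) (i : Fin r) :
    Matrix (Fin n) (Fin n) (MvPolynomial (Fin r × Fin n × Fin n) k) := fun u v => X (i, u, v)

/-- generators of the ideal -/
def gens (k : Type u) [Field k] (r n : ℕ) : Set (MvPolynomial (Fin r × Fin n × Fin n) k) :=
  {p | (∃ i u v, p = (genMat k r n i ^ n) u v) ∨
    ∃ i j u v, p = (genMat k r n i * genMat k r n j - genMat k r n j * genMat k r n i) u v}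

theorem aeval_pow {L : Type*} [CommRing L] [Algebra k L] (y : Fin r × Fin n × Fin n → L)
    (i : Fin r) (m : ℕ) (u v : Fin n) :
    aeval y ((genMat k r n i ^ m) u v) = (ofPt y i ^ m) u v := by
  have h : ((aeval y : MvPolynomial (Fin r × Fin n × Fin n) k →ₐ[k] L).mapMatrix
      (genMat k r n i)) = ofPt y i := by
    ext u v
    simp [genMat, ofPt]
  rw [← h, ← map_pow]
  rfl

theorem aeval_comm {L : Type*} [CommRing L] [Algebra k L] (y : Fin r × Fin n × Fin n → L)
    (i j : Fin r) (u v : Fin n) :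
    aeval y ((genMat k r n i * genMat k r n j - genMat k r n j * genMat k r n i) u v)
      = (ofPt y i * ofPt y j - ofPt y j * ofPt y i) u v := by
  have h : ∀ i, ((aeval y : MvPolynomial (Fin r × Fin n × Fin n) k →ₐ[k] L).mapMatrix
      (genMat k r n i)) = ofPt y i := by
    intro i
    ext u v
    simp [genMat, ofPt]
  rw [← h, ← h, ← map_mul, ← map_mul, ← map_sub]
  rfl

theorem gens_iff {L : Type*} [CommRing L] [Algebra k L] (y : Fin r × Fin n × Fin n → L) :
    (∀ p ∈ gens k r n, aeval y p = 0) ↔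
      (∀ i, ofPt y i ^ n = 0) ∧ ∀ i j, ofPt y i * ofPt y j = ofPt y j * ofPt y i := by
  constructor
  · intro h
    constructor
    · intro i
      ext u v
      rw [← aeval_pow (k := k), h _ (Or.inl ⟨i, u, v, rfl⟩)]
      rfl
    · intro i j
      rw [← sub_eq_zero]
      ext u v
      rw [← aeval_comm (k := k), h _ (Or.inr ⟨i, j, u, v, rfl⟩)]
      rfl
  · rintro ⟨h1, h2⟩ p (⟨i, u, v, rfl⟩ | ⟨i, j, u, v, rfl⟩)
    · rw [aeval_pow, h1]
      rfl
    · rw [aeval_comm, h2 i j, sub_self]
      rfl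

theorem nilp_iff (x : Matrix (Fin n) (Fin n) k) : IsNilpotent x ↔ x ^ n = 0 := by
  constructor
  · intro h
    have h1 := Matrix.isNilpotent_charpoly_sub_pow_of_isNilpotent h
    have h2 : x.charpoly = Polynomial.X ^ (Fintype.card (Fin n)) :=
      sub_eq_zero.1 (isNilpotent_iff_eq_zero.1 h1)
    have h3 := Matrix.aeval_self_charpoly x
    rw [h2] at h3
    simpa using h3
  · intro h
    exact ⟨n, h⟩

theorem mem_comNil_iff (x : Tup k r n) :
    x ∈ comNil k r n ↔ (∀ i, x i ^ n = 0) ∧ ∀ i j, x i * x j = x j * x i := by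
  simp only [comNil, Set.mem_ofPred_eq, nilp_iff]

theorem closed_comNil : IsZariskiClosed (comNil k r n) := by
  refine ⟨gens k r n, ?_⟩
  ext x
  rw [mem_comNil_iff]
  have h := gens_iff (k := k) (r := r) (n := n) (fun p => x p.1 p.2.1 p.2.2)
  exact h.symm

/-- the variety in coordinates is the zero locus of the ideal of the generators -/
theorem zeroLocus_gens :
    {y : Fin r × Fin n × Fin n → k | ofPt y ∈ comNil k r n}
      = zeroLocus k (Ideal.span (gens k r n)) := by
  rw [zeroLocus_span]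
  ext y
  rw [Set.mem_ofPred_eq, Set.mem_ofPred_eq, mem_comNil_iff, gens_iff]

/-- the nilpotent Jordan block -/
def shift (k : Type*) [Field k] (m : ℕ) : Matrix (Fin (m + 1)) (Fin (m + 1)) k :=
  fun u v => if (u : ℕ) = v + 1 then 1 else 0

theorem shift_pow (m j : ℕ) (u v : Fin (m + 1)) :
    (shift k m ^ j) u v = if (u : ℕ) = v + j then 1 else 0 := by
  induction j generalizing u v with
  | zero =>
    simp only [pow_zero, Matrix.one_apply, add_zero, Fin.ext_iff]
  | succ j ih =>
    rw [pow_succ, Matrix.mul_apply]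
    simp only [ih, shift]
    by_cases h : (v : ℕ) + 1 < m + 1
    · rw [Finset.sum_eq_single (⟨v + 1, h⟩ : Fin (m + 1))]
      · simp only [if_true, mul_one]
        congr 1
        apply propext
        constructor <;> intro h <;> omega
      · intro w _ hw
        have : ¬ ((w : ℕ) = v + 1) := fun h' => hw (Fin.ext h')
        rw [if_neg this, mul_zero]
      · intro h'
        exact absurd (Finset.mem_univ _) h'
    · rw [Finset.sum_eq_zero]
      · rw [if_neg]
        have := u.2
        omega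
      · intro w _
        have h' : ¬ ((w : ℕ) = v + 1) := by
          have := w.2
          omega
        rw [if_neg h', mul_zero]

end

section

variable {k : Type u} [Field k] [IsAlgClosed k]

/-- the vanishing ideal of the variety -/
noncomputable def vid (k : Type u) [Field k] (n : ℕ) :
    Ideal (MvPolynomial (Fin 3 × Fin n × Fin n) k) :=
  vanishingIdeal k {y : Fin 3 × Fin n × Fin n → k | ofPt y ∈ comNil k 3 n}

theorem vid_eq (n : ℕ) : vid k n = (Ideal.span (gens k 3 n)).radical := by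
  rw [vid, zeroLocus_gens, vanishingIdeal_zeroLocus_eq_radical]

theorem gens_sub (n : ℕ) : ∀ p ∈ gens k 3 n, p ∈ vid k n := by
  intro p hp
  rw [vid_eq]
  exact Ideal.le_radical (Ideal.subset_span hp)

/-- a point over a field extension satisfying the equations kills the vanishing ideal -/
theorem vid_kill (n : ℕ) {K : Type u} [Field K] [Algebra k K] (y : Fin 3 × Fin n × Fin n → K)
    (h1 : ∀ i, ofPt y i ^ n = 0) (h2 : ∀ i j, ofPt y i * ofPt y j = ofPt y j * ofPt y i) :
    ∀ p ∈ vid k n, aeval y p = 0 := by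
  intro p hp
  rw [vid_eq] at hp
  obtain ⟨m, hm⟩ := hp
  have h3 : Ideal.span (gens k 3 n) ≤ RingHom.ker (aeval y : _ →ₐ[k] K) := by
    rw [Ideal.span_le]
    intro q hq
    exact (gens_iff y).2 ⟨h1, h2⟩ q hq
  have h4 := h3 hm
  rw [RingHom.mem_ker, map_pow] at h4
  by_contra h0
  exact pow_ne_zero m h0 h4

theorem main_aux (hA : StA.{u}) (hB : StB.{u}) (m a b c : ℕ) (hab : a ≤ b)
    (h1 : b + c ≤ 3 * a) (h2 : c ≤ 3 * (b - a)) (hn : c + (b + a) = m + 1) (hm : 3 ≤ m + 1)
    (hD : (m + 1) * m + 2 * m < 4 * a * b + 4 * b * c + a * c)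
    (hP : (vid k (m + 1)).IsPrime) : False := by
  let P := vid k (m + 1)
  let A := MvPolynomial (Fin 3 × Fin (m + 1) × Fin (m + 1)) k ⧸ P
  let E := FractionRing A
  let y : Fin 3 × Fin (m + 1) × Fin (m + 1) → E :=
    fun s => algebraMap A E (Ideal.Quotient.mk P (X s))
  have hy : ∀ p, aeval y p = algebraMap A E (Ideal.Quotient.mk P p) := by
    intro p
    have : (aeval y : _ →ₐ[k] E) = (IsScalarTower.toAlgHom k A E).comp (Ideal.Quotient.mkₐ k P) := by
      ext s
      simp only [aeval_X]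
      rfl
    rw [this]
    rfl
  have hg := (gens_iff (k := k) y).1 (fun p hp => by
    rw [hy, Ideal.Quotient.eq_zero_iff_mem.2 (gens_sub _ p hp), map_zero])
  obtain ⟨S, hS1, hS2⟩ := hA k E m (ofPt y) (fun i j => hg.2 i j) hg.1 ⟨Fin.last m, by
    rw [← aeval_pow (k := k), hy]
    intro h0
    have h3 : algebraMap A E (Ideal.Quotient.mk P ((genMat k 3 (m + 1) 0 ^ m) (Fin.last m) 0))
        = algebraMap A E 0 := by rw [h0, map_zero]
    have h4 := IsFractionRing.injective A E h3
    have h5 : (genMat k 3 (m + 1) 0 ^ m) (Fin.last m) 0 ∈ P := Ideal.Quotient.eq_zero_iff_mem.1 h4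
    let z : Fin 3 × Fin (m + 1) × Fin (m + 1) → k :=
      fun p => (if p.1 = 0 then shift k m else 0) p.2.1 p.2.2
    have hz : ∀ i, ofPt z i = if i = 0 then shift k m else 0 := by
      intro i
      ext u v
      rfl
    have h6 := h5 z (by
      show ofPt z ∈ comNil k 3 (m + 1)
      rw [mem_comNil_iff]
      constructor
      · intro i
        rw [hz]
        split_ifs
        · ext u v
          rw [shift_pow, if_neg]
          · rfl
          · have := u.2
            omega
        · exact zero_pow (by omega)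
      · intro i j
        rw [hz, hz]
        split_ifs <;> simp)
    rw [aeval_pow, hz, if_pos rfl, shift_pow] at h6
    simp at h6⟩
  have hU := trdeg_quot_le P S (fun s => hS2 s.1 s.2.1 s.2.2)
  obtain ⟨K, _, _, t, M, ht, hM1, hM2, hM3⟩ := hB k a b c hab h1 h2
  let e : Fin c ⊕ (Fin b ⊕ Fin a) ≃ Fin (m + 1) :=
    Fintype.equivFinOfCardEq (by simp [hn])
  let w : Fin 3 × Fin (m + 1) × Fin (m + 1) → K :=
    fun p => M p.1 (e.symm p.2.1) (e.symm p.2.2)
  have hw : ∀ i, ofPt w i = Matrix.reindexAlgEquiv k K e (M i) := by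
    intro i
    ext u v
    rfl
  have hL := le_trdeg_quot P w (vid_kill (m + 1) w
    (fun i => by
      rw [hw, ← map_pow]
      have : M i ^ (m + 1) = 0 := pow_eq_zero_of_le hm (hM2 i)
      rw [this, map_zero])
    (fun i j => by rw [hw, hw, ← map_mul, ← map_mul, hM1])) t ht (by
      intro s
      have hr : {z : K | ∃ i v w, z = M i v w} = Set.range w := by
        ext z
        constructor
        · rintro ⟨i, u, v, rfl⟩
          exact ⟨(i, e u, e v), by simp [w]⟩
        · rintro ⟨⟨i, u, v⟩, rfl⟩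
          exact ⟨i, _, _, rfl⟩
      rw [← hr]
      exact hM3 s)
  have hF := hL.trans hU
  have hF' : 4 * a * b + 4 * b * c + a * c ≤ S.card := by exact_mod_cast hF
  omega

/-- the variety is reducible -/
theorem main (hA : StA.{u}) (hB : StB.{u}) (m a b c : ℕ) (hab : a ≤ b)
    (h1 : b + c ≤ 3 * a) (h2 : c ≤ 3 * (b - a)) (hn : c + (b + a) = m + 1) (hm : 3 ≤ m + 1)
    (hD : (m + 1) * m + 2 * m < 4 * a * b + 4 * b * c + a * c) :
    ∃ Y Z : Set (Tup k 3 (m + 1)), IsZariskiClosed Y ∧ IsZariskiClosed Z ∧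
      Y ⊂ comNil k 3 (m + 1) ∧ Z ⊂ comNil k 3 (m + 1) ∧ Y ∪ Z = comNil k 3 (m + 1) := by
  by_contra hcon
  refine main_aux (k := k) hA hB m a b c hab h1 h2 hn hm hD ?_
  have key : ∀ f : MvPolynomial (Fin 3 × Fin (m + 1) × Fin (m + 1)) k,
      IsZariskiClosed (comNil k 3 (m + 1) ∩
        {x | MvPolynomial.eval (fun p => x p.1 p.2.1 p.2.2) f = 0}) := by
    intro f
    obtain ⟨F, hF⟩ := closed_comNil (k := k) (r := 3) (n := m + 1)
    refine ⟨insert f F, ?_⟩
    rw [hF]
    ext x
    simp only [Set.mem_inter_iff, Set.mem_ofPred_eq, Set.mem_insert_iff, forall_eq_or_imp]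
    tauto
  have key2 : ∀ f : MvPolynomial (Fin 3 × Fin (m + 1) × Fin (m + 1)) k,
      f ∉ vid k (m + 1) → (comNil k 3 (m + 1) ∩
        {x | MvPolynomial.eval (fun p => x p.1 p.2.1 p.2.2) f = 0}) ⊂ comNil k 3 (m + 1) := by
    intro f hf
    refine ⟨Set.inter_subset_left, fun hsub => hf ?_⟩
    intro y hy
    have := (hsub hy).2
    simpa [ofPt, aeval_eq_eval] using this
  refine Ideal.isPrime_iff.2 ⟨?_, ?_⟩
  · intro htop
    have h3 : (1 : MvPolynomial (Fin 3 × Fin (m + 1) × Fin (m + 1)) k) ∈ vid k (m + 1) := by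
      rw [htop]
      trivial
    have h4 := h3 (fun _ => 0) (by
      show ofPt (fun _ => (0 : k)) ∈ comNil k 3 (m + 1)
      rw [mem_comNil_iff]
      have h5 : ∀ i : Fin 3, ofPt (n := m + 1) (fun _ => (0 : k)) i = 0 := fun i => rfl
      constructor
      · intro i
        rw [h5]
        exact zero_pow (by omega)
      · intro i j
        rw [h5, h5])
    rw [map_one] at h4
    exact one_ne_zero h4
  · intro f g hfg
    by_contra hno
    push Not at hno
    apply hcon
    refine ⟨_, _, key f, key g, key2 f hno.1, key2 g hno.2, ?_⟩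
    apply Set.Subset.antisymm
    · rintro x (hx | hx)
      · exact hx.1
      · exact hx.1
    · intro x hx
      have h3 := hfg (fun p => x p.1 p.2.1 p.2.2) hx
      rw [map_mul, mul_eq_zero] at h3
      rcases h3 with h3 | h3
      · exact Or.inl ⟨hx, by simpa [aeval_eq_eval] using h3⟩
      · exact Or.inr ⟨hx, by simpa [aeval_eq_eval] using h3⟩

theorem final (hA : StA.{u}) (hB : StB.{u}) (n : ℕ) (hn : 15 ≤ n) :
    ∃ Y Z : Set (Tup k 3 n), IsZariskiClosed Y ∧ IsZariskiClosed Z ∧
      Y ⊂ comNil k 3 n ∧ Z ⊂ comNil k 3 n ∧ Y ∪ Z = comNil k 3 n := by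
  obtain ⟨m, hm⟩ : ∃ m, n = m + 1 := ⟨n - 1, by omega⟩
  subst hm
  obtain ⟨q, hq⟩ : ∃ q, (m + 1 = 4 * q ∨ m + 1 = 4 * q + 1 ∨ m + 1 = 4 * q + 2) ∧ 4 ≤ q ∨
      m + 1 = 4 * q + 3 ∧ 3 ≤ q := by
    refine ⟨(m + 1) / 4, ?_⟩
    omega
  rcases hq with ⟨h | h | h, hq⟩ | ⟨h, hq⟩
  · refine main hA hB m q (2 * q) q (by omega) (by omega) (by omega) (by omega) (by omega) ?_
    have hm' : m = 4 * q - 1 := by omega
    obtain ⟨p, rfl⟩ : ∃ p, q = p + 4 := ⟨q - 4, by omega⟩
    have hm'' : m = 4 * p + 15 := by omega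
    subst hm''
    nlinarith
  · refine main hA hB m (q + 1) (2 * q) q (by omega) (by omega) (by omega) (by omega) (by omega) ?_
    obtain ⟨p, rfl⟩ : ∃ p, q = p + 4 := ⟨q - 4, by omega⟩
    have hm'' : m = 4 * p + 16 := by omega
    subst hm''
    nlinarith
  · refine main hA hB m (q + 1) (2 * q) (q + 1) (by omega) (by omega) (by omega) (by omega)
      (by omega) ?_
    obtain ⟨p, rfl⟩ : ∃ p, q = p + 4 := ⟨q - 4, by omega⟩
    have hm'' : m = 4 * p + 17 := by omega
    subst hm''
    nlinarith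
  · refine main hA hB m (q + 1) (2 * q + 1) (q + 1) (by omega) (by omega) (by omega) (by omega)
      (by omega) ?_
    obtain ⟨p, rfl⟩ : ∃ p, q = p + 3 := ⟨q - 3, by omega⟩
    have hm'' : m = 4 * p + 14 := by omega
    subst hm''
    nlinarith

end

end Pool.Agent.R641.CN
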